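import Pool.Agent.H14.T1.S3
import Pool.Agent.H14.T1.Met

/-!
# NF: statements of the modules, reciprocity over the rational numbers

`A`, `B` are symmetric matrices over `ℚ`, near to each other at `2` and isometric over `ℝ`.  The form
`A ⊕ -B` has at each odd prime a lattice whose discriminant module is killed by the prime.
-/

set_option autoImplicit false

namespace Pool.NF

open Matrix Pool.T1 Pool.AVS

section Defs

/-- The rational numbers regular at `p`. -/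
def Zp (p : ℕ) : Set ℚ := {x | ¬ p ∣ x.den}

/-- The residue modulo `p` of a rational number regular at `p`. -/
def rsd (p : ℕ) (x : ℚ) : ZMod p := (x.num : ZMod p) * (x.den : ZMod p)⁻¹

open Classical in
/-- `1` for squares, `-1` for the other elements. -/
noncomputable def ch {p : ℕ} (a : ZMod p) : ℤ := if IsSquare a then 1 else -1

/-- The part of `x` prime to `p`. -/
noncomputable def up (p : ℕ) (x : ℚ) : ℚ := x / (p : ℚ) ^ padicValRat p x

/-- The symbol at the odd prime `p`. -/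
noncomputable def tm (p : ℕ) (x y : ℚ) : ℤ :=
  ch (rsd p ((-1) ^ (padicValRat p x * padicValRat p y) * up p x ^ padicValRat p y *
    up p y ^ padicValRat p x))

/-- The product of the symbols of the pairs of entries of a list. -/
noncomputable def hsl (p : ℕ) : List ℚ → ℤ
  | [] => 1
  | x :: l => tm p x l.prod * hsl p l

/-- A prime number different from `2`. -/
def OPr (p : ℕ) : Prop := p.Prime ∧ p ≠ 2

/-- The number of the entries of the list of odd valuation. -/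
noncomputable def nod (p : ℕ) (l : List ℚ) : ℕ := l.countP fun x => decide (Odd (padicValRat p x))

/-- The product of the residues of the entries of odd valuation. -/
noncomputable def pod (p : ℕ) (l : List ℚ) : ZMod p :=
  ((l.filter fun x => decide (Odd (padicValRat p x))).map fun x => rsd p (up p x)).prod

section Mat

variable {ι : Type} [Fintype ι] [DecidableEq ι]

/-- There is a lattice for the form `G`, given by `g`, with a discriminant module which is killed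
by `p` and for which the `d` vectors `u e` are a basis; `δ` is the determinant of the form on the
discriminant module with respect to this basis. -/
def LocQ (p : ℕ) (G : Matrix ι ι ℚ) (d : ℕ) (δ : ZMod p) : Prop :=
  ∃ (g : Matrix ι ι ℚ) (κ : Type) (_ : Fintype κ) (_ : DecidableEq κ) (u : κ → ι → ℚ),
    g.det ≠ 0 ∧ Fintype.card κ = d ∧ MInI (Zp p) (gᵀ * G * g) ∧
    (∀ e i, (gᵀ *ᵥ (G *ᵥ u e)) i ∈ Zp p) ∧
    (∀ e i, (p : ℚ) * (g⁻¹ *ᵥ u e) i ∈ Zp p) ∧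
    (∀ x : ι → ℚ, (∀ i, (gᵀ *ᵥ (G *ᵥ x)) i ∈ Zp p) → (∀ e, x ⬝ᵥ (G *ᵥ u e) ∈ Zp p) →
      ∀ i, (g⁻¹ *ᵥ x) i ∈ Zp p) ∧
    δ = (Matrix.of fun e e' => rsd p ((p : ℚ) * (u e ⬝ᵥ (G *ᵥ u e')))).det

/-- `kᵀ A k` and `B` are as near as we please at `p`. -/
def NearQ (p : ℕ) (A B : Matrix ι ι ℚ) : Prop :=
  ∀ a : ℚ, a ≠ 0 → ∃ k : Matrix ι ι ℚ, k.det ≠ 0 ∧ ∀ i j, (kᵀ * A * k - B) i j / a ∈ Zp p

/-- `A` and `B` are isometric over `ℝ`. -/
def IsoR (A B : Matrix ι ι ℚ) : Prop :=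
  ∃ k : Matrix ι ι ℝ, k.det ≠ 0 ∧
    kᵀ * A.map (Rat.cast : ℚ → ℝ) * k = B.map (Rat.cast : ℚ → ℝ)

/-- The numbers `c`, `b` have a positive quotient, congruent to `1` modulo `8`. -/
def Nr8 (c b : ℚ) : Prop := c ≠ 0 ∧ b ≠ 0 ∧ 0 < c / b ∧ (c / b - 1) / 8 ∈ Zp 2

end Mat

end Defs

/-! ### The local rings of `ℚ` -/

/-- ZPB: first properties.  (`padicValRat`.) -/
def ZPBStmt : Prop :=
  ∀ p : ℕ, p.Prime →
    (∃ O : ValuationSubring ℚ, (O : Set ℚ) = Zp p ∧ Unif O (p : ℚ)) ∧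
    (∀ x : ℚ, x ≠ 0 → UI (Zp p) (up p x) ∧ (x ∈ Zp p ↔ 0 ≤ padicValRat p x)) ∧
    (∀ x ∈ Zp p, ∀ y ∈ Zp p, rsd p (x + y) = rsd p x + rsd p y ∧
      rsd p (x * y) = rsd p x * rsd p y) ∧
    (∀ n : ℤ, (n : ℚ) ∈ Zp p ∧ rsd p (n : ℚ) = n) ∧
    (∀ x ∈ Zp p, rsd p x = 0 ↔ x / p ∈ Zp p)

/-- CHM: the quadratic character. -/
def CHMStmt : Prop :=
  ∀ p : ℕ, p.Prime → ∀ a b : ZMod p, a ≠ 0 → b ≠ 0 → ch (a * b) = ch a * ch b ∧ ch (a * a) = 1 ∧
    ch (1 : ZMod p) = 1 ∧ (ch a = 1 ∨ ch a = -1)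

/-! ### Lattices -/

/-- SML: the sum of two lattices.  (Replace one by one: if `v` is a vector, `c = h⁻¹ v` and `c i` is
of maximal value and not in `O`, then `h.updateCol i v` is a basis of the sum of the lattice of
`h` and of `O v`.) -/
def SMLStmt : Prop :=
  ∀ (L : Type) [Field L] (O : ValuationSubring L) (ι : Type) [Fintype ι] [DecidableEq ι]
    (g₁ g₂ : Matrix ι ι L), g₁.det ≠ 0 → ∃ h a b : Matrix ι ι L, h.det ≠ 0 ∧
      MInI (O : Set L) (h⁻¹ * g₁) ∧ MInI (O : Set L) (h⁻¹ * g₂) ∧ MInI (O : Set L) a ∧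
      MInI (O : Set L) b ∧ h = g₁ * a + g₂ * b

/-- CMP: comparison of two lattices.  (The pairs `(x, x)` with `x` in the intersection of the dual
lattices are a subspace of the sum of the discriminant modules equal to its orthogonal space;
SML for the sum of the lattices, whose dual is the intersection; `met_sq` of H14/T1/Met.) -/
def CMPStmt : Prop :=
  ∀ (p : ℕ), p.Prime → ∀ (ι : Type) [Fintype ι] [DecidableEq ι] (G : Matrix ι ι ℚ), Gᵀ = G →
    G.det ≠ 0 → ∀ (d₁ d₂ : ℕ) (δ₁ δ₂ : ZMod p), δ₁ ≠ 0 → δ₂ ≠ 0 → LocQ p G d₁ δ₁ →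
    LocQ p G d₂ δ₂ → ∃ m : ℕ, d₁ + d₂ = 2 * m ∧ IsSquare ((-1) ^ (m + d₂) * (δ₁ * δ₂))

/-- LQC: change of the basis; self-dual lattices. -/
def LQCStmt : Prop :=
  ∀ (p : ℕ), p.Prime → ∀ (ι : Type) [Fintype ι] [DecidableEq ι] (G h : Matrix ι ι ℚ),
    h.det ≠ 0 → (∀ (d : ℕ) (δ : ZMod p), LocQ p (hᵀ * G * h) d δ → LocQ p G d δ) ∧
      (GInI (Zp p) (hᵀ * G * h) → LocQ p G 0 1)

open Classical in
/-- LQD: diagonal forms.  (`g` is the diagonal matrix of the `p ^ (- (v (c i) / 2))`, the vectors are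
the `p ^ (- (v (c i) / 2) - 1) e_i` for the `i` with `v (c i)` odd.) -/
def LQDStmt : Prop :=
  ∀ (p : ℕ), p.Prime → ∀ (ι : Type) [Fintype ι] [DecidableEq ι] (c : ι → ℚ), (∀ i, c i ≠ 0) →
    LocQ p (Matrix.diagonal c)
      (Finset.univ.filter fun i => Odd (padicValRat p (c i))).card
      (∏ i ∈ Finset.univ.filter fun i => Odd (padicValRat p (c i)), rsd p (up p (c i)))

/-! ### Symbols -/

/-- TMM: rules for the symbol. -/
def TMMStmt : Prop :=
  ∀ p : ℕ, OPr p → ∀ x y z : ℚ, x ≠ 0 → y ≠ 0 → z ≠ 0 →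
    (tm p x y = 1 ∨ tm p x y = -1) ∧ tm p x y = tm p y x ∧
    tm p x (y * z) = tm p x y * tm p x z ∧ tm p x (-x) = 1 ∧
    (padicValRat p x = 0 → padicValRat p y = 0 → tm p x y = 1)

/-- HSL: the product of the symbols and the discriminant of the residues.  (Induction; for a list with
`r` entries of odd valuation the product is the character of
`(-1) ^ (r (r - 1) / 2) ∏ (residues) ^ r ∏ (residues of the entries of odd valuation)`.) -/
def HSLStmt : Prop :=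
  ∀ p : ℕ, OPr p → ∀ (l : List ℚ) (m : ℕ), (∀ x ∈ l, x ≠ 0) → nod p l = 2 * m →
    hsl p l = ch ((-1) ^ m * pod p l) ∧ pod p l ≠ 0

/-- QRC: the law of quadratic reciprocity, for `c > 0` congruent to `1` modulo `8`.  (`c` may be taken
to be an odd positive integer, `x` to be `-1`, `2` or an odd prime `q`; if `c = q ^ e c'` the
product is `J(q | c') J(c' | q) J(-1 | q) ^ e`.) -/
def QRCStmt : Prop :=
  ∀ (x c : ℚ) (S : Finset ℕ), x ≠ 0 → 0 < c → (c - 1) / 8 ∈ Zp 2 → (∀ p ∈ S, OPr p) →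
    (∀ p, OPr p → p ∉ S → padicValRat p x = 0 ∧ padicValRat p c = 0) → ∏ p ∈ S, tm p x c = 1

/-- PRL: the product formula for the form `⟨a_i, -b_i⟩`.  (Induction:
`hsl (a :: -b :: l) = (a, -b) (- a b, prod l) hsl l`; up to squares `prod l` is `± c` with `c > 0`
congruent to `1` modulo `8`; QRC.) -/
def PRLStmt : Prop :=
  ∀ (l : List (ℚ × ℚ)) (S : Finset ℕ), (∀ q ∈ l, Nr8 q.1 q.2) → (∀ p ∈ S, OPr p) →
    (∀ p, OPr p → p ∉ S → ∀ q ∈ l, padicValRat p q.1 = 0 ∧ padicValRat p q.2 = 0) →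
    ∏ p ∈ S, hsl p (l.flatMap fun q => [q.1, -q.2]) = 1

/-! ### Diagonalisation -/

/-- DGE: symmetric matrices can be diagonalised.  (Mathlib: `exists_orthogonal_basis`.) -/
def DGEStmt : Prop :=
  ∀ (k : Type) [Field k], (2 : k) ≠ 0 → ∀ (ι : Type) [Fintype ι] [DecidableEq ι]
    (A : Matrix ι ι k), Aᵀ = A → ∃ (h : Matrix ι ι k) (b : ι → k), h.det ≠ 0 ∧
      hᵀ * A * h = Matrix.diagonal b

/-- WAQ: weak approximation at `2` and at infinity. -/
def WAQStmt : Prop :=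
  ∀ (ι : Type) [Fintype ι] (k₂ : Matrix ι ι ℚ) (k : Matrix ι ι ℝ) (a : ℚ) (ε : ℝ), a ≠ 0 →
    0 < ε → ∃ h : Matrix ι ι ℚ, (∀ i j, (h i j - k₂ i j) / a ∈ Zp 2) ∧
      ∀ i j, |(h i j : ℝ) - k i j| < ε

/-- GSN: a matrix near to a diagonal matrix.  (Induction on the number of rows: the first column of
the matrix can be cleared, the new matrix is near to the diagonal matrix too.) -/
def GSNStmt : Prop :=
  ∀ (ι : Type) [Fintype ι] [DecidableEq ι] (b : ι → ℚ), (∀ i, b i ≠ 0) →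
    ∃ (a : ℚ) (ε : ℝ), a ≠ 0 ∧ 0 < ε ∧ ∀ S : Matrix ι ι ℚ, Sᵀ = S →
      (∀ i j, (S i j - Matrix.diagonal b i j) / a ∈ Zp 2) →
      (∀ i j, |((S i j - Matrix.diagonal b i j : ℚ) : ℝ)| < ε) →
      ∃ (k : Matrix ι ι ℚ) (c : ι → ℚ), k.det ≠ 0 ∧ kᵀ * S * k = Matrix.diagonal c ∧
        ∀ i, Nr8 (c i) (b i)

/-- DGN: near matrices can be diagonalised to near diagonal matrices.  (DGE for `B`; WAQ and
GSN.) -/
def DGNStmt : Prop :=
  ∀ (ι : Type) [Fintype ι] [DecidableEq ι] (A B : Matrix ι ι ℚ), Aᵀ = A → Bᵀ = B →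
    A.det ≠ 0 → B.det ≠ 0 → NearQ 2 A B → IsoR A B →
    ∃ (k h : Matrix ι ι ℚ) (a b : ι → ℚ), k.det ≠ 0 ∧ h.det ≠ 0 ∧
      kᵀ * A * k = Matrix.diagonal a ∧ hᵀ * B * h = Matrix.diagonal b ∧ ∀ i, Nr8 (a i) (b i)

/-- RCLQ: reciprocity over `ℚ`.  (DGN; at each odd prime CMP for the lattice of the diagonal form;
HSL, PRL.) -/
def RCLQStmt : Prop :=
  ∀ (ι : Type) [Fintype ι] [DecidableEq ι] (A B : Matrix ι ι ℚ) (T : Finset ℕ) (m : ℕ → ℕ)
    (δ : ∀ p : ℕ, ZMod p), Aᵀ = A → Bᵀ = B → A.det ≠ 0 → B.det ≠ 0 → (∀ p ∈ T, OPr p) →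
    (∀ p ∈ T, LocQ p (Matrix.fromBlocks A 0 0 (-B)) (2 * m p) (δ p) ∧ δ p ≠ 0) →
    (∀ p, OPr p → p ∉ T → ∃ g : Matrix (ι ⊕ ι) (ι ⊕ ι) ℚ, g.det ≠ 0 ∧
      GInI (Zp p) (gᵀ * Matrix.fromBlocks A 0 0 (-B) * g)) →
    NearQ 2 A B → IsoR A B → Even {p | p ∈ T ∧ ¬ IsSquare ((-1) ^ m p * δ p)}.ncard

end Pool.NF
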