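import Pool.Agent.H17.NF.N

/-!
# NF: the primes of a number field have density zero
-/

set_option autoImplicit false

namespace Pool.NF

open NumberField IsDedekindDomain

private theorem ni_eq (K : Type) [Field K] [NumberField K] (I : Ideal (𝓞 K)) :
    Ni I = Ideal.absNorm I := by
  rw [Ni, Ideal.absNorm_apply, Submodule.cardQuot_apply]

private theorem prz_fiber (K : Type) [Field K] [NumberField K] (p : ℕ) (hp : p.Prime)
    (S : Finset (HeightOneSpectrum (𝓞 K))) (hS : ∀ P ∈ S, (p : 𝓞 K) ∈ P.asIdeal) :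
    S.card ≤ dg K := by
  classical
  have h1 : ∏ P ∈ S, P.asIdeal ∣ Ideal.span {(p : 𝓞 K)} := by
    refine Finset.prod_dvd_of_coprime ?_ ?_
    · intro P _ Q _ hPQ
      have : P.asIdeal ≠ Q.asIdeal := fun h => hPQ (HeightOneSpectrum.ext h)
      exact Ideal.isCoprime_iff_sup_eq.2 (Ideal.IsMaximal.coprime_of_ne P.isMaximal Q.isMaximal this)
    · intro P hP
      rw [Ideal.dvd_iff_le, Ideal.span_singleton_le_iff_mem]
      exact hS P hP
  have hn : Ideal.absNorm (Ideal.span {(p : 𝓞 K)}) = p ^ dg K := by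
    rw [Ideal.absNorm_span_singleton]
    rw [Algebra.norm_natCast, RingOfIntegers.rank]
    simp [Int.natAbs_pow]
  have h2 : ∏ P ∈ S, Ideal.absNorm P.asIdeal ∣ p ^ dg K := by
    rw [← hn, ← map_prod]
    exact map_dvd _ h1
  have h3 : p ^ S.card ∣ ∏ P ∈ S, Ideal.absNorm P.asIdeal := by
    rw [← Finset.prod_const]
    refine Finset.prod_dvd_prod_of_dvd _ _ fun P hP => ?_
    have hd : Ideal.absNorm P.asIdeal ∣ p ^ dg K := (Finset.dvd_prod_of_mem _ hP).trans h2
    obtain ⟨k, hk, hk'⟩ := (Nat.dvd_prime_pow hp).1 hd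
    rw [hk']
    refine dvd_pow_self _ ?_
    rintro rfl
    exact P.isPrime.ne_top (Ideal.absNorm_eq_one_iff.1 (by simpa using hk'))
  exact (Nat.pow_dvd_pow_iff_le_right hp.one_lt).1 (h3.trans h2)

private theorem prz_ex (K : Type) [Field K] [NumberField K] (P : HeightOneSpectrum (𝓞 K)) :
    ∃ p : ℕ, p.Prime ∧ (p : 𝓞 K) ∈ P.asIdeal ∧ p ≤ Ni P.asIdeal := by
  have h0 : Ni P.asIdeal ≠ 0 := by
    rw [ni_eq]
    exact fun h => P.ne_bot (Ideal.absNorm_eq_zero_iff.1 h)
  have h1 : (∏ p ∈ (Ni P.asIdeal).primeFactorsList.toFinset, (1 : ℕ)) = 1 := by simp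
  have hm : ((Ni P.asIdeal : ℕ) : 𝓞 K) ∈ P.asIdeal := by
    rw [ni_eq]
    exact Ideal.absNorm_mem P.asIdeal
  have key : ∀ m : ℕ, m ≠ 0 → ((m : ℕ) : 𝓞 K) ∈ P.asIdeal →
      ∃ p : ℕ, p.Prime ∧ (p : 𝓞 K) ∈ P.asIdeal ∧ p ∣ m := by
    intro m
    induction m using Nat.strong_induction_on with
    | _ m ih =>
      intro hm0 hmm
      by_cases h : m = 1
      · subst h
        exact absurd (Ideal.eq_top_of_isUnit_mem _ hmm (by simp)) P.isPrime.ne_top
      · have hmf := Nat.minFac_prime h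
        obtain ⟨k, hk⟩ := Nat.minFac_dvd m
        rw [hk, Nat.cast_mul] at hmm
        rcases P.isPrime.mem_or_mem hmm with h' | h'
        · exact ⟨_, hmf, h', Nat.minFac_dvd m⟩
        · have hk0 : k ≠ 0 := by
            rintro rfl
            simp at hk
            exact hm0 hk
          have hlt : k < m := by
            have h2 := hmf.two_le
            calc k < 2 * k := by omega
              _ ≤ m.minFac * k := Nat.mul_le_mul_right _ h2
              _ = m := hk.symm
          obtain ⟨p, hp, hpP, hpk⟩ := ih k hlt hk0 h'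
          exact ⟨p, hp, hpP, hpk.trans ⟨_, by rw [mul_comm]; exact hk⟩⟩
  obtain ⟨p, hp, hpP, hpd⟩ := key _ h0 hm
  exact ⟨p, hp, hpP, Nat.le_of_dvd (Nat.pos_of_ne_zero h0) hpd⟩

private theorem prz_card (K : Type) [Field K] [NumberField K] (x : ℝ)
    (S : Finset (HeightOneSpectrum (𝓞 K))) (hS : ∀ P ∈ S, (Ni P.asIdeal : ℝ) ≤ x) :
    S.card ≤ dg K * Nat.primeCounting ⌊x⌋₊ := by
  classical
  choose f hf1 hf2 hf3 using prz_ex K
  have h := Finset.card_le_mul_card_image_of_maps_to (s := S) (t := Nat.primesLE ⌊x⌋₊) (f := f)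
    (fun P hP => by
      rw [Nat.mem_primesLE]
      refine ⟨?_, hf1 P⟩
      have h1 : (Ni P.asIdeal : ℝ) ≤ x := hS P hP
      have h2 : Ni P.asIdeal ≤ ⌊x⌋₊ := Nat.le_floor h1
      exact (hf3 P).trans h2) (dg K)
    (fun p _ => by
      by_cases hne : ({a ∈ S | f a = p} : Finset _).Nonempty
      · obtain ⟨P, hP⟩ := hne
        have hp : p.Prime := by
          rw [← (Finset.mem_filter.1 hP).2]
          exact hf1 P
        refine prz_fiber K p hp _ fun Q hQ => ?_
        have := hf2 Q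
        rwa [(Finset.mem_filter.1 hQ).2] at this
      · rw [Finset.not_nonempty_iff_eq_empty.1 hne]
        simp)
  rwa [Nat.primesLE_card_eq_primeCounting] at h

theorem prz : PRZStmt := by
  classical
  intro K _ _ ε hε
  have hev := Chebyshev.eventually_primeCounting_le (ε := 1) one_pos
  have hlog := Real.tendsto_log_atTop.eventually_ge_atTop
    ((dg K : ℝ) * (Real.log 4 + 1) / ε + 1)
  obtain ⟨x₀, hx₀⟩ := Filter.eventually_atTop.1
    (hev.and (hlog.and (Filter.eventually_ge_atTop (1 : ℝ))))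
  refine ⟨x₀, fun x hx => ?_⟩
  obtain ⟨h1, h2, h3⟩ := hx₀ x hx
  have hfin : {P : HeightOneSpectrum (𝓞 K) | (Ni P.asIdeal : ℝ) ≤ x}.Finite := by
    by_contra hinf
    obtain ⟨S, hS, hc⟩ := (show Set.Infinite _ from hinf).exists_subset_card_eq
      (dg K * Nat.primeCounting ⌊x⌋₊ + 1)
    have := prz_card K x S (fun P hP => hS hP)
    omega
  refine ⟨hfin, ?_⟩
  have hc := prz_card K x hfin.toFinset (fun P hP => by simpa using hP)
  rw [Set.ncard_eq_toFinset_card _ hfin]
  have hl4 : 0 ≤ Real.log 4 := Real.log_nonneg (by norm_num)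
  have hlx : 0 < Real.log x := by
    have : 0 ≤ (dg K : ℝ) * (Real.log 4 + 1) / ε := by positivity
    linarith
  calc (hfin.toFinset.card : ℝ) ≤ (dg K : ℝ) * Nat.primeCounting ⌊x⌋₊ := by exact_mod_cast hc
    _ ≤ (dg K : ℝ) * ((Real.log 4 + 1) * x / Real.log x) := by
        exact mul_le_mul_of_nonneg_left h1 (by positivity)
    _ = (dg K : ℝ) * (Real.log 4 + 1) * x / Real.log x := by ring
    _ ≤ ε * x := by
        rw [div_le_iff₀ hlx]
        have h4 : (dg K : ℝ) * (Real.log 4 + 1) / ε ≤ Real.log x := by linarith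
        rw [div_le_iff₀ hε] at h4
        have hx0 : 0 ≤ x := by linarith
        nlinarith [mul_le_mul_of_nonneg_right h4 hx0]

end Pool.NF
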