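import Pool.Agent.H85.NF.Q
import Pool.Agent.H2.T1.Rcl

/-!
# NF: CMP, comparison of two lattices
-/

set_option autoImplicit false

namespace Pool.NF.Cmp

open Matrix Pool.T1 Pool.AVS Pool.T1.Rcl

section Abs

variable {L k : Type} [Field L] [Field k]

/-- `ρ` is a residue map on the ring `R` with kernel generated by `π`. -/
structure Rd (R : Subring L) (π : L) (ρ : L → k) : Prop where
  add : ∀ x ∈ R, ∀ y ∈ R, ρ (x + y) = ρ x + ρ y
  mul : ∀ x ∈ R, ∀ y ∈ R, ρ (x * y) = ρ x * ρ y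
  one : ρ 1 = 1
  ker : ∀ x ∈ R, (ρ x = 0 ↔ x / π ∈ R)
  surj : ∀ s : k, ∃ x ∈ R, ρ x = s
  pi0 : π ≠ 0
  piR : π ∈ R

variable {R : Subring L} {π : L} {ρ : L → k}

theorem Rd.zero (h : Rd R π ρ) : ρ 0 = 0 := by
  rw [h.ker 0 R.zero_mem, zero_div]
  exact R.zero_mem

theorem Rd.sum (h : Rd R π ρ) {α : Type} (s : Finset α) (f : α → L) (hf : ∀ i ∈ s, f i ∈ R) :
    ρ (∑ i ∈ s, f i) = ∑ i ∈ s, ρ (f i) := by
  classical
  induction s using Finset.induction_on with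
  | empty => simpa using h.zero
  | insert a s ha ih =>
    rw [Finset.sum_insert ha, Finset.sum_insert ha, h.add _ (hf a (Finset.mem_insert_self _ _)) _
      (R.sum_mem fun i hi => hf i (Finset.mem_insert_of_mem hi)),
      ih fun i hi => hf i (Finset.mem_insert_of_mem hi)]

theorem Rd.zero_of (h : Rd R π ρ) {x : L} (hx : x ∈ R) : ρ (π * x) = 0 := by
  rw [h.ker _ (R.mul_mem h.piR hx), mul_div_cancel_left₀ _ h.pi0]
  exact hx

theorem Rd.mem_of (h : Rd R π ρ) {x : L} (hx : π * x ∈ R) (h0 : ρ (π * x) = 0) : x ∈ R := by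
  rw [h.ker _ hx, mul_div_cancel_left₀ _ h.pi0] at h0
  exact h0

theorem Rd.neg (h : Rd R π ρ) {x : L} (hx : x ∈ R) : ρ (-x) = - ρ x := by
  have h1 := h.add x hx (-x) (R.neg_mem hx)
  rw [add_neg_cancel, h.zero] at h1
  exact (neg_eq_of_add_eq_zero_right h1.symm).symm

theorem Rd.sub (h : Rd R π ρ) {x y : L} (hx : x ∈ R) (hy : y ∈ R) : ρ (x - y) = ρ x - ρ y := by
  rw [sub_eq_add_neg, h.add x hx _ (R.neg_mem hy), h.neg hy, ← sub_eq_add_neg]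

variable {ι κ : Type} [Fintype ι] [DecidableEq ι] [Fintype κ] [DecidableEq κ]

set_option linter.unusedSectionVars false

/-- The dual lattice. -/
def Dl (R : Subring L) (G g : Matrix ι ι L) (x : ι → L) : Prop :=
  ∀ i, (gᵀ *ᵥ (G *ᵥ x)) i ∈ R

/-- The lattice. -/
def La (R : Subring L) (g : Matrix ι ι L) (x : ι → L) : Prop := ∀ i, (g⁻¹ *ᵥ x) i ∈ R

theorem sym {G : Matrix ι ι L} (hG : Gᵀ = G) (x y : ι → L) :
    x ⬝ᵥ (G *ᵥ y) = y ⬝ᵥ (G *ᵥ x) := by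
  rw [Matrix.dotProduct_mulVec, ← Matrix.mulVec_transpose, hG, dotProduct_comm]

theorem Dl.add {G g : Matrix ι ι L} {x y : ι → L} (hx : Dl R G g x) (hy : Dl R G g y) :
    Dl R G g (x + y) := by
  intro i
  rw [Matrix.mulVec_add, Matrix.mulVec_add, Pi.add_apply]
  exact R.add_mem (hx i) (hy i)

theorem Dl.smul {G g : Matrix ι ι L} {c : L} (hc : c ∈ R) {x : ι → L} (hx : Dl R G g x) :
    Dl R G g (c • x) := by
  intro i
  rw [Matrix.mulVec_smul, Matrix.mulVec_smul, Pi.smul_apply, smul_eq_mul]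
  exact R.mul_mem hc (hx i)

theorem Dl.neg {G g : Matrix ι ι L} {x : ι → L} (hx : Dl R G g x) : Dl R G g (-x) := by
  intro i
  rw [Matrix.mulVec_neg, Matrix.mulVec_neg, Pi.neg_apply]
  exact R.neg_mem (hx i)

theorem Dl.sub {G g : Matrix ι ι L} {x y : ι → L} (hx : Dl R G g x) (hy : Dl R G g y) :
    Dl R G g (x - y) := by
  rw [sub_eq_add_neg]
  exact hx.add hy.neg

theorem Dl.zero {G g : Matrix ι ι L} : Dl R G g (0 : ι → L) := by
  intro i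
  rw [Matrix.mulVec_zero, Matrix.mulVec_zero]
  exact R.zero_mem

theorem Dl.sum {G g : Matrix ι ι L} {α : Type} (s : Finset α) (f : α → ι → L)
    (hf : ∀ e ∈ s, Dl R G g (f e)) : Dl R G g (∑ e ∈ s, f e) := by
  classical
  induction s using Finset.induction_on with
  | empty => simpa using Dl.zero
  | insert a s ha ih =>
    rw [Finset.sum_insert ha]
    exact (hf a (Finset.mem_insert_self _ _)).add
      (ih fun e he => hf e (Finset.mem_insert_of_mem he))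

theorem pair {G g : Matrix ι ι L} (hg : g.det ≠ 0) {x y : ι → L} (hx : La R g x)
    (hy : Dl R G g y) : x ⬝ᵥ (G *ᵥ y) ∈ R := by
  have h1 : g *ᵥ (g⁻¹ *ᵥ x) = x := by
    rw [Matrix.mulVec_mulVec, Matrix.mul_nonsing_inv _ (isUnit_iff_ne_zero.2 hg),
      Matrix.one_mulVec]
  have h2 : x ⬝ᵥ (G *ᵥ y) = (g⁻¹ *ᵥ x) ⬝ᵥ (gᵀ *ᵥ (G *ᵥ y)) := by
    rw [Matrix.dotProduct_mulVec (g⁻¹ *ᵥ x) gᵀ, Matrix.vecMul_transpose, h1]
  rw [h2]
  exact dot_mem R hx hy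

theorem la_dl {G g : Matrix ι ι L} (hg : g.det ≠ 0) (hint : MInI (R : Set L) (gᵀ * G * g))
    {x : ι → L} (hx : La R g x) : Dl R G g x := by
  intro i
  have h1 : g *ᵥ (g⁻¹ *ᵥ x) = x := by
    rw [Matrix.mulVec_mulVec, Matrix.mul_nonsing_inv _ (isUnit_iff_ne_zero.2 hg),
      Matrix.one_mulVec]
  have h2 : gᵀ *ᵥ (G *ᵥ x) = (gᵀ * G * g) *ᵥ (g⁻¹ *ᵥ x) := by
    rw [← Matrix.mulVec_mulVec, h1, ← Matrix.mulVec_mulVec]
  rw [h2]
  exact mv_mem R hint hx i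

theorem coord (h : Rd R π ρ) {G g : Matrix ι ι L} (hG : Gᵀ = G) (hg : g.det ≠ 0)
    (u : κ → ι → L) (hdual : ∀ e, Dl R G g (u e))
    (hkill : ∀ e i, π * (g⁻¹ *ᵥ u e) i ∈ R)
    (hdt : ∀ x : ι → L, Dl R G g x → (∀ e, x ⬝ᵥ (G *ᵥ u e) ∈ R) → La R g x)
    (M : Matrix κ κ k) (hM : M = Matrix.of fun e e' => ρ (π * (u e ⬝ᵥ (G *ᵥ u e'))))
    (hM0 : M.det ≠ 0) :
    Mᵀ = M ∧ ∃ ψ : (ι → L) → κ → k,
      (∀ x y, Dl R G g x → Dl R G g y → ψ (x + y) = ψ x + ψ y) ∧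
      (∀ c ∈ R, ∀ x, Dl R G g x → ψ (c • x) = ρ c • ψ x) ∧
      (∀ x y, Dl R G g x → Dl R G g y → π * (x ⬝ᵥ (G *ᵥ y)) ∈ R ∧
        ρ (π * (x ⬝ᵥ (G *ᵥ y))) = ψ x ⬝ᵥ (M *ᵥ ψ y)) ∧
      (∀ s, ∃ z, Dl R G g z ∧ ψ z = s) ∧
      (∀ x, Dl R G g x → (ψ x = 0 ↔ La R g x)) := by
  have hMt : Mᵀ = M := by
    rw [hM]
    ext e e'
    rw [Matrix.transpose_apply, Matrix.of_apply, Matrix.of_apply, sym hG]
  have hMu : IsUnit M.det := isUnit_iff_ne_zero.2 hM0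
  have hpu : ∀ x, Dl R G g x → ∀ e, π * (x ⬝ᵥ (G *ᵥ u e)) ∈ R := by
    intro x hx e
    have h1 : La R g (π • u e) := by
      intro i
      rw [Matrix.mulVec_smul, Pi.smul_apply, smul_eq_mul]
      exact hkill e i
    have h2 := pair hg h1 hx
    rw [sym hG, Matrix.mulVec_smul, dotProduct_smul, smul_eq_mul] at h2
    exact h2
  set φ : (ι → L) → κ → k := fun x e => ρ (π * (x ⬝ᵥ (G *ᵥ u e))) with hφ
  have φadd : ∀ x y, Dl R G g x → Dl R G g y → φ (x + y) = φ x + φ y := by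
    intro x y hx hy
    funext e
    simp only [hφ, Pi.add_apply, add_dotProduct, mul_add]
    exact h.add _ (hpu x hx e) _ (hpu y hy e)
  have φsmul : ∀ c ∈ R, ∀ x, Dl R G g x → φ (c • x) = ρ c • φ x := by
    intro c hc x hx
    funext e
    simp only [hφ, Pi.smul_apply, smul_dotProduct, smul_eq_mul]
    rw [← h.mul _ hc _ (hpu x hx e)]
    congr 1
    ring
  have φu : ∀ e, φ (u e) = M *ᵥ Pi.single e 1 := by
    intro e
    funext e'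
    rw [Matrix.mulVec_single_one]
    simp only [hφ, hM, Matrix.col_apply, Matrix.of_apply]
    rw [sym hG]
  have φsum : ∀ (s : Finset κ) (c : κ → L), (∀ e, c e ∈ R) →
      φ (∑ e ∈ s, c e • u e) = ∑ e ∈ s, ρ (c e) • (M *ᵥ Pi.single e 1) := by
    intro s c hc
    induction s using Finset.induction_on with
    | empty =>
      funext e
      simp only [hφ, Finset.sum_empty, zero_dotProduct, mul_zero, Pi.zero_apply]
      exact h.zero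
    | insert a s ha ih =>
      rw [Finset.sum_insert ha, Finset.sum_insert ha,
        φadd _ _ ((hdual a).smul (hc a)) (Dl.sum s _ fun e _ => (hdual e).smul (hc e)),
        φsmul _ (hc a) _ (hdual a), ih, φu]
  have hsum1 : ∀ s : κ → k, ∑ e, s e • (M *ᵥ Pi.single e (1 : k)) = M *ᵥ s := by
    intro s
    have h1 : s = ∑ e, s e • (Pi.single e (1 : k) : κ → k) := by
      funext e'
      simp [Finset.sum_apply, Pi.single_apply]
    conv_rhs => rw [h1]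
    rw [Matrix.mulVec_sum]
    refine Finset.sum_congr rfl fun e _ => ?_
    rw [Matrix.mulVec_smul]
  have hex : ∀ s : κ → k, ∃ c : κ → L, (∀ e, c e ∈ R) ∧ (∀ e, ρ (c e) = s e) := by
    intro s
    choose c hc hc' using fun e => h.surj (s e)
    exact ⟨c, hc, hc'⟩
  have hlift : ∀ s : κ → k, ∃ c : κ → L, (∀ e, c e ∈ R) ∧ (∀ e, ρ (c e) = s e) ∧
      Dl R G g (∑ e, c e • u e) ∧ φ (∑ e, c e • u e) = M *ᵥ s := by
    intro s
    obtain ⟨c, hc, hc'⟩ := hex s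
    refine ⟨c, hc, hc', Dl.sum _ _ fun e _ => (hdual e).smul (hc e), ?_⟩
    rw [φsum _ c hc, ← hsum1 s]
    refine Finset.sum_congr rfl fun e _ => ?_
    rw [hc']
  have φ0 : ∀ x, Dl R G g x → (φ x = 0 ↔ La R g x) := by
    intro x hx
    constructor
    · intro h0
      refine hdt x hx fun e => ?_
      exact h.mem_of (hpu x hx e) (congrFun h0 e)
    · intro hl
      funext e
      exact h.zero_of (pair hg hl (hdual e))
  have φneg : ∀ x, Dl R G g x → φ (-x) = - φ x := by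
    intro x hx
    have h1 := φadd x (-x) hx hx.neg
    have h2 : φ 0 = 0 := by
      funext e
      simp only [hφ, zero_dotProduct, mul_zero, Pi.zero_apply]
      exact h.zero
    rw [add_neg_cancel, h2] at h1
    exact (neg_eq_of_add_eq_zero_right h1.symm).symm
  -- every vector is a combination of the u e modulo the lattice
  have hdec : ∀ x, Dl R G g x → ∃ (c : κ → L) (l : ι → L), (∀ e, c e ∈ R) ∧
      (∀ e, ρ (c e) = (M⁻¹ *ᵥ φ x) e) ∧ La R g l ∧ x = (∑ e, c e • u e) + l := by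
    intro x hx
    obtain ⟨c, hc, hc', hD, hφc⟩ := hlift (M⁻¹ *ᵥ φ x)
    refine ⟨c, x - ∑ e, c e • u e, hc, hc', ?_, by abel⟩
    rw [← φ0 _ (hx.sub hD), sub_eq_add_neg, φadd _ _ hx hD.neg, φneg _ hD, hφc,
      Matrix.mulVec_mulVec, Matrix.mul_nonsing_inv _ hMu, Matrix.one_mulVec, add_neg_cancel]
  refine ⟨hMt, fun x => M⁻¹ *ᵥ φ x, ?_, ?_, ?_, ?_, ?_⟩
  · intro x y hx hy
    simp only
    rw [φadd x y hx hy, Matrix.mulVec_add]
  · intro c hc x hx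
    simp only
    rw [φsmul c hc x hx, Matrix.mulVec_smul]
  · intro x y hx hy
    obtain ⟨c, l, hc, hc', hl, hxe⟩ := hdec x hx
    simp only
    have hMy : M *ᵥ (M⁻¹ *ᵥ φ y) = φ y := by
      rw [Matrix.mulVec_mulVec, Matrix.mul_nonsing_inv _ hMu, Matrix.one_mulVec]
    rw [hMy]
    have hly : l ⬝ᵥ (G *ᵥ y) ∈ R := pair hg hl hy
    have h1 : π * (x ⬝ᵥ (G *ᵥ y)) =
        (∑ e, c e * (π * (y ⬝ᵥ (G *ᵥ u e)))) + π * (l ⬝ᵥ (G *ᵥ y)) := by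
      conv_lhs => rw [hxe]
      rw [add_dotProduct, mul_add, sum_dotProduct, Finset.mul_sum]
      congr 1
      refine Finset.sum_congr rfl fun e _ => ?_
      rw [smul_dotProduct, smul_eq_mul, sym hG (u e) y]
      ring
    have hm : ∀ e ∈ (Finset.univ : Finset κ), c e * (π * (y ⬝ᵥ (G *ᵥ u e))) ∈ R := fun e _ =>
      R.mul_mem (hc e) (hpu y hy e)
    refine ⟨?_, ?_⟩
    · rw [h1]
      exact R.add_mem (R.sum_mem hm) (R.mul_mem h.piR hly)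
    · rw [h1, h.add _ (R.sum_mem hm) _ (R.mul_mem h.piR hly), h.zero_of hly, add_zero,
        h.sum _ _ hm]
      change _ = ∑ e, (M⁻¹ *ᵥ φ x) e * φ y e
      refine Finset.sum_congr rfl fun e _ => ?_
      rw [h.mul _ (hc e) _ (hpu y hy e), hc']
  · intro s
    obtain ⟨c, hc, hc', hD, hφc⟩ := hlift s
    refine ⟨_, hD, ?_⟩
    change M⁻¹ *ᵥ φ _ = s
    rw [hφc, Matrix.mulVec_mulVec, Matrix.nonsing_inv_mul _ hMu, Matrix.one_mulVec]
  · intro x hx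
    change M⁻¹ *ᵥ φ x = 0 ↔ _
    rw [← φ0 x hx]
    constructor
    · intro h0
      have : M *ᵥ (M⁻¹ *ᵥ φ x) = M *ᵥ 0 := by rw [h0]
      rwa [Matrix.mulVec_mulVec, Matrix.mul_nonsing_inv _ hMu, Matrix.one_mulVec,
        Matrix.mulVec_zero] at this
    · intro h0
      rw [h0, Matrix.mulVec_zero]

theorem cmp_abs (h : Rd R π ρ) {G g₁ g₂ : Matrix ι ι L} (hG : Gᵀ = G) (hG0 : G.det ≠ 0)
    (hg₁ : g₁.det ≠ 0) (hg₂ : g₂.det ≠ 0) {κ' : Type} [Fintype κ'] [DecidableEq κ']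
    (hint₁ : MInI (R : Set L) (g₁ᵀ * G * g₁)) (hint₂ : MInI (R : Set L) (g₂ᵀ * G * g₂))
    (u₁ : κ → ι → L) (u₂ : κ' → ι → L) (hd₁ : ∀ e, Dl R G g₁ (u₁ e))
    (hd₂ : ∀ e, Dl R G g₂ (u₂ e)) (hk₁ : ∀ e i, π * (g₁⁻¹ *ᵥ u₁ e) i ∈ R)
    (hk₂ : ∀ e i, π * (g₂⁻¹ *ᵥ u₂ e) i ∈ R)
    (ht₁ : ∀ x : ι → L, Dl R G g₁ x → (∀ e, x ⬝ᵥ (G *ᵥ u₁ e) ∈ R) → La R g₁ x)
    (ht₂ : ∀ x : ι → L, Dl R G g₂ x → (∀ e, x ⬝ᵥ (G *ᵥ u₂ e) ∈ R) → La R g₂ x)
    (M₁ : Matrix κ κ k) (hM₁ : M₁ = Matrix.of fun e e' => ρ (π * (u₁ e ⬝ᵥ (G *ᵥ u₁ e'))))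
    (M₂ : Matrix κ' κ' k) (hM₂ : M₂ = Matrix.of fun e e' => ρ (π * (u₂ e ⬝ᵥ (G *ᵥ u₂ e'))))
    (h₁ : M₁.det ≠ 0) (h₂ : M₂.det ≠ 0) {c a b : Matrix ι ι L} (hc : c.det ≠ 0)
    (hc₁ : MInI (R : Set L) (c⁻¹ * g₁)) (hc₂ : MInI (R : Set L) (c⁻¹ * g₂))
    (ha : MInI (R : Set L) a) (hb : MInI (R : Set L) b) (hab : c = g₁ * a + g₂ * b) :
    ∃ m : ℕ, Fintype.card κ + Fintype.card κ' = 2 * m ∧
      IsSquare ((-1) ^ (m + Fintype.card κ') * (M₁.det * M₂.det)) := by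
  classical
  obtain ⟨hs₁, ψ₁, add₁, smul₁, pr₁, sj₁, ze₁⟩ := coord h hG hg₁ u₁ hd₁ hk₁ ht₁ M₁ hM₁ h₁
  obtain ⟨hs₂, ψ₂, add₂, smul₂, pr₂, sj₂, ze₂⟩ := coord h hG hg₂ u₂ hd₂ hk₂ ht₂ M₂ hM₂ h₂
  let H : Matrix (κ ⊕ κ') (κ ⊕ κ') k := Matrix.fromBlocks M₁ 0 0 (-M₂)
  have hHdet : H.det = (-1) ^ Fintype.card κ' * (M₁.det * M₂.det) := by
    rw [Matrix.det_fromBlocks_zero₂₁, Matrix.det_neg]
    ring
  have hH0 : H.det ≠ 0 := by
    rw [hHdet]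
    exact mul_ne_zero (pow_ne_zero _ (neg_ne_zero.2 one_ne_zero)) (mul_ne_zero h₁ h₂)
  have hHt : Hᵀ = H := by
    rw [Matrix.fromBlocks_transpose, hs₁, Matrix.transpose_neg, hs₂]
    simp [H]
  have hpr : ∀ (s s' : κ → k) (t t' : κ' → k), Sum.elim s t ⬝ᵥ (H *ᵥ Sum.elim s' t') =
      s ⬝ᵥ (M₁ *ᵥ s') - t ⬝ᵥ (M₂ *ᵥ t') := by
    intro s s' t t'
    rw [Matrix.fromBlocks_mulVec]
    simp [Function.comp_def, dotProduct, Fintype.sum_sum_type, Matrix.neg_mulVec, sub_eq_add_neg]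
  let Good : (ι → L) → Prop := fun x => Dl R G g₁ x ∧ Dl R G g₂ x
  have z₁ : ψ₁ 0 = 0 := by
    rw [ze₁ 0 Dl.zero]
    intro i
    rw [Matrix.mulVec_zero]
    exact R.zero_mem
  have z₂ : ψ₂ 0 = 0 := by
    rw [ze₂ 0 Dl.zero]
    intro i
    rw [Matrix.mulVec_zero]
    exact R.zero_mem
  let S : Submodule k (κ ⊕ κ' → k) :=
    { carrier := {w | ∃ x, Good x ∧ w = Sum.elim (ψ₁ x) (ψ₂ x)}
      add_mem' := by
        rintro _ _ ⟨x, hx, rfl⟩ ⟨y, hy, rfl⟩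
        refine ⟨x + y, ⟨hx.1.add hy.1, hx.2.add hy.2⟩, ?_⟩
        rw [add₁ x y hx.1 hy.1, add₂ x y hx.2 hy.2]
        funext e
        rcases e with e | e <;> rfl
      zero_mem' := by
        refine ⟨0, ⟨Dl.zero, Dl.zero⟩, ?_⟩
        rw [z₁, z₂]
        funext e
        rcases e with e | e <;> rfl
      smul_mem' := by
        rintro s _ ⟨x, hx, rfl⟩
        obtain ⟨c, hc, rfl⟩ := h.surj s
        refine ⟨c • x, ⟨hx.1.smul hc, hx.2.smul hc⟩, ?_⟩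
        rw [smul₁ c hc x hx.1, smul₂ c hc x hx.2]
        funext e
        rcases e with e | e <;> rfl }
  have hSiso : ∀ v ∈ S, ∀ w ∈ S, v ⬝ᵥ (H *ᵥ w) = 0 := by
    rintro v ⟨x, hx, rfl⟩ w ⟨y, hy, rfl⟩
    rw [hpr, ← (pr₁ x y hx.1 hy.1).2, ← (pr₂ x y hx.2 hy.2).2, sub_self]
  have hSperp : ∀ w, (∀ v ∈ S, v ⬝ᵥ (H *ᵥ w) = 0) → w ∈ S := by
    intro w hw
    obtain ⟨x₁, hx₁, hw₁⟩ := sj₁ (w ∘ Sum.inl)
    obtain ⟨x₂, hx₂, hw₂⟩ := sj₂ (w ∘ Sum.inr)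
    have hwe : w = Sum.elim (ψ₁ x₁) (ψ₂ x₂) := by
      rw [hw₁, hw₂]
      funext e
      rcases e with e | e <;> rfl
    have hz : ∀ x, Good x → (x₁ - x₂) ⬝ᵥ (G *ᵥ x) ∈ R := by
      intro x hx
      have h3 := hw _ ⟨x, hx, rfl⟩
      rw [hwe, hpr, ← (pr₁ x x₁ hx.1 hx₁).2, ← (pr₂ x x₂ hx.2 hx₂).2,
        ← h.sub (pr₁ x x₁ hx.1 hx₁).1 (pr₂ x x₂ hx.2 hx₂).1, ← mul_sub] at h3
      have h4 : π * (x ⬝ᵥ (G *ᵥ x₁) - x ⬝ᵥ (G *ᵥ x₂)) ∈ R := by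
        rw [mul_sub]
        exact R.sub_mem (pr₁ x x₁ hx.1 hx₁).1 (pr₂ x x₂ hx.2 hx₂).1
      have h5 := h.mem_of h4 h3
      rw [sub_dotProduct, sym hG x₁, sym hG x₂]
      exact h5
    -- the sum of the lattices
    have hcu : IsUnit c.det := isUnit_iff_ne_zero.2 hc
    have hGu : IsUnit G.det := isUnit_iff_ne_zero.2 hG0
    have hin : ∀ j, (c⁻¹ *ᵥ (x₁ - x₂)) j ∈ R := by
      intro j
      have hgd : ∀ g : Matrix ι ι L, MInI (R : Set L) (c⁻¹ * g) →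
          Dl R G g (G⁻¹ *ᵥ (c⁻¹ᵀ *ᵥ Pi.single j 1)) := by
        intro g hcg i
        rw [Matrix.mulVec_mulVec _ G, Matrix.mul_nonsing_inv _ hGu, Matrix.one_mulVec,
          Matrix.mulVec_mulVec, ← Matrix.transpose_mul, Matrix.mulVec_single_one]
        exact hcg j i
      have h3 := hz _ ⟨hgd g₁ hc₁, hgd g₂ hc₂⟩
      rw [Matrix.mulVec_mulVec _ G, Matrix.mul_nonsing_inv _ hGu, Matrix.one_mulVec,
        Matrix.dotProduct_mulVec, Matrix.vecMul_transpose, dotProduct_single, mul_one] at h3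
      exact h3
    have hcx : x₁ - x₂ = g₁ *ᵥ (a *ᵥ (c⁻¹ *ᵥ (x₁ - x₂))) + g₂ *ᵥ (b *ᵥ (c⁻¹ *ᵥ (x₁ - x₂))) := by
      rw [Matrix.mulVec_mulVec _ g₁, Matrix.mulVec_mulVec _ g₂, ← Matrix.add_mulVec, ← hab,
        Matrix.mulVec_mulVec, Matrix.mul_nonsing_inv _ hcu, Matrix.one_mulVec]
    set l₁ := g₁ *ᵥ (a *ᵥ (c⁻¹ *ᵥ (x₁ - x₂))) with hl₁
    set l₂ := g₂ *ᵥ (b *ᵥ (c⁻¹ *ᵥ (x₁ - x₂))) with hl₂
    have hl₁' : La R g₁ l₁ := by
      intro i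
      rw [hl₁, Matrix.mulVec_mulVec, Matrix.nonsing_inv_mul _ (isUnit_iff_ne_zero.2 hg₁),
        Matrix.one_mulVec]
      exact mv_mem R ha hin i
    have hl₂' : La R g₂ l₂ := by
      intro i
      rw [hl₂, Matrix.mulVec_mulVec, Matrix.nonsing_inv_mul _ (isUnit_iff_ne_zero.2 hg₂),
        Matrix.one_mulVec]
      exact mv_mem R hb hin i
    have hd1 : Dl R G g₁ l₁ := la_dl hg₁ hint₁ hl₁'
    have hd2 : Dl R G g₂ l₂ := la_dl hg₂ hint₂ hl₂'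
    have hx : x₁ - l₁ = x₂ + l₂ := by
      rw [sub_eq_iff_eq_add, add_assoc, add_comm l₂ l₁, ← hcx]
      abel
    refine ⟨x₁ - l₁, ⟨hx₁.sub hd1, ?_⟩, ?_⟩
    · rw [hx]
      exact hx₂.add hd2
    · have e₁ : ψ₁ (x₁ - l₁) = ψ₁ x₁ := by
        have h3 := add₁ (x₁ - l₁) l₁ (hx₁.sub hd1) hd1
        rw [sub_add_cancel, (ze₁ l₁ hd1).2 hl₁', add_zero] at h3
        exact h3.symm
      have e₂ : ψ₂ (x₁ - l₁) = ψ₂ x₂ := by
        rw [hx, add₂ x₂ l₂ hx₂ hd2, (ze₂ l₂ hd2).2 hl₂', add_zero]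
      rw [e₁, e₂]
      exact hwe
  -- the dimension
  set B : LinearMap.BilinForm k (κ ⊕ κ' → k) := Matrix.toBilin' H with hB
  have hBnd : B.Nondegenerate := LinearMap.BilinForm.nondegenerate_toBilin'_of_det_ne_zero' _ hH0
  have hBS : B.orthogonal S = S := by
    ext w
    rw [LinearMap.BilinForm.mem_orthogonal_iff]
    constructor
    · intro hw
      apply hSperp
      intro v hv
      have := hw v hv
      rw [hB, Matrix.toBilin'_apply'] at this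
      exact this
    · intro hw v hv
      rw [hB, Matrix.toBilin'_apply']
      exact hSiso v hv w hw
  have hfin := LinearMap.BilinForm.finrank_orthogonal hBnd S
  rw [hBS, Module.finrank_pi, Fintype.card_sum] at hfin
  have hle : Module.finrank k S ≤ Fintype.card κ + Fintype.card κ' := by
    have := Submodule.finrank_le S
    rwa [Module.finrank_pi, Fintype.card_sum] at this
  refine ⟨Module.finrank k S, by omega, ?_⟩
  let bS := Module.finBasis k S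
  have hmet := met_sq (Module.finrank k S) (by rw [Fintype.card_sum]; omega) H hHt
    (fun i => (bS i : κ ⊕ κ' → k))
    (by
      have := bS.linearIndependent.map' S.subtype (Submodule.ker_subtype S)
      exact this)
    (fun i j => hSiso _ (bS i).2 _ (bS j).2)
  rw [hHdet, ← mul_assoc, ← pow_add] at hmet
  exact hmet

end Abs

theorem rdZ (hz : ZPBStmt) (p : ℕ) (hp : p.Prime) : ∃ O : ValuationSubring ℚ,
    (O : Set ℚ) = Zp p ∧ (haveI := Fact.mk hp; Rd (k := ZMod p) O.toSubring (p : ℚ) (rsd p)) := by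
  haveI := Fact.mk hp
  obtain ⟨⟨O, hO, hU⟩, -, h2, h3, h4⟩ := hz p hp
  have hm : ∀ x : ℚ, x ∈ O.toSubring ↔ x ∈ Zp p := by
    intro x
    rw [← hO]
    rfl
  refine ⟨O, hO, ?_⟩
  constructor
  · intro x hx y hy
    exact (h2 x ((hm x).1 hx) y ((hm y).1 hy)).1
  · intro x hx y hy
    exact (h2 x ((hm x).1 hx) y ((hm y).1 hy)).2
  · have := (h3 1).2
    simpa using this
  · intro x hx
    rw [h4 x ((hm x).1 hx), hm]
  · intro s
    refine ⟨((s.val : ℤ) : ℚ), (hm _).2 (h3 _).1, ?_⟩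
    rw [(h3 _).2]
    simp
  · exact hU.1
  · exact hU.2.1

theorem cmp (hz : ZPBStmt) (hs : SMLStmt) : CMPStmt := by
  intro p hp ι _ _ G hG hG0 d₁ d₂ δ₁ δ₂ h1 h2 hl1 hl2
  haveI := Fact.mk hp
  obtain ⟨O, hO, hR⟩ := rdZ hz p hp
  obtain ⟨g₁, κ₁, _, _, u₁, a1, a2, a3, a4, a5, a6, a7⟩ := hl1
  obtain ⟨g₂, κ₂, _, _, u₂, b1, b2, b3, b4, b5, b6, b7⟩ := hl2
  obtain ⟨c, a, b, hc, hc1, hc2, ha, hb, hab⟩ := hs ℚ O ι g₁ g₂ a1
  have hO' : (O.toSubring : Set ℚ) = Zp p := hO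
  have hm : ∀ x : ℚ, x ∈ O.toSubring ↔ x ∈ Zp p := by
    intro x
    rw [← hO]
    rfl
  obtain ⟨m, hm1, hm2⟩ := cmp_abs (R := O.toSubring) hR hG hG0 a1 b1
    (by rw [hO']; exact a3) (by rw [hO']; exact b3) u₁ u₂
    (fun e i => (hm _).2 (a4 e i)) (fun e i => (hm _).2 (b4 e i))
    (fun e i => (hm _).2 (a5 e i)) (fun e i => (hm _).2 (b5 e i))
    (fun x hx he i => (hm _).2 (a6 x (fun i => (hm _).1 (hx i)) (fun e => (hm _).1 (he e)) i))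
    (fun x hx he i => (hm _).2 (b6 x (fun i => (hm _).1 (hx i)) (fun e => (hm _).1 (he e)) i))
    _ rfl _ rfl (by rw [← a7]; exact h1) (by rw [← b7]; exact h2) hc hc1 hc2 ha hb hab
  rw [← a7, ← b7, b2] at hm2
  rw [a2, b2] at hm1
  exact ⟨m, hm1, hm2⟩

end Pool.NF.Cmp

namespace Pool.NF

theorem cmp : ZPBStmt → SMLStmt → CMPStmt := Pool.NF.Cmp.cmp

end Pool.NF
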