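import Pool.Agent.H85.NF.Q
import Pool.Agent.H2.T1.Rcl

/-!
# NF: SML, the sum of two lattices; LQC, change of the basis
-/

set_option autoImplicit false

namespace Pool.NF.Sml

open Matrix Pool.T1 Pool.AVS Pool.T1.Rcl

variable {L : Type} [Field L] {ι : Type} [Fintype ι] [DecidableEq ι]

/-- The unit matrix with the column `i` replaced by `c`. -/
def El (i : ι) (c : ι → L) : Matrix ι ι L :=
  Matrix.of fun l k => if k = i then c l else if l = k then 1 else 0

theorem el_mulVec (i : ι) (c x : ι → L) (l : ι) :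
    (El i c *ᵥ x) l = c l * x i + (if l = i then 0 else x l) := by
  have h1 : ∀ k, El i c l k * x k =
      (if k = i then c l * x i else 0) + (if k = l then (if l = i then 0 else x l) else 0) := by
    intro k
    simp only [El, Matrix.of_apply]
    by_cases hk : k = i
    · subst hk
      by_cases hl : l = k
      · subst hl
        simp
      · simp [Ne.symm hl]
    · by_cases hl : l = k
      · subst hl
        simp [hk]
      · simp [hk, hl, Ne.symm hl]
  change ∑ k, El i c l k * x k = _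
  rw [Finset.sum_congr rfl fun k _ => h1 k, Finset.sum_add_distrib, Finset.sum_ite_eq',
    Finset.sum_ite_eq']
  simp

theorem el_mul (i : ι) (c : ι → L) (A : Matrix ι ι L) (l m : ι) :
    (El i c * A) l m = c l * A i m + (if l = i then 0 else A l m) :=
  el_mulVec i c (fun k => A k m) l

theorem el_inv (i : ι) (c : ι → L) (hc : c i ≠ 0) :
    El i c * El i (fun l => if l = i then (c i)⁻¹ else - (c l / c i)) = 1 := by
  ext l m
  rw [el_mul]
  simp only [El, Matrix.of_apply, Matrix.one_apply]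
  by_cases hm : m = i
  · subst hm
    by_cases hl : l = m
    · subst hl
      simp [hc]
    · simp [hl, div_eq_mul_inv]
  · by_cases hl : l = i
    · subst hl
      simp [hm, Ne.symm hm]
    · simp [hm, hl, Ne.symm hm]

theorem mul_el (i : ι) (c : ι → L) (A : Matrix ι ι L) (l k : ι) :
    (A * El i c) l k = if k = i then (A *ᵥ c) l else A l k := by
  rw [Matrix.mul_apply]
  by_cases hk : k = i
  · simp only [El, Matrix.of_apply, hk, if_true]
    rfl
  · simp [El, hk]

theorem step (O : ValuationSubring L) (g₁ g₂ h a b : Matrix ι ι L) (J : Finset ι) (j : ι)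
    (hh : h.det ≠ 0) (h₁ : MInI (O : Set L) (h⁻¹ * g₁))
    (h₂ : ∀ j ∈ J, ∀ i, (h⁻¹ * g₂) i j ∈ O) (ha : MInI (O : Set L) a)
    (hb : MInI (O : Set L) b) (hab : h = g₁ * a + g₂ * b) :
    ∃ h a b : Matrix ι ι L, h.det ≠ 0 ∧ MInI (O : Set L) (h⁻¹ * g₁) ∧
      (∀ j' ∈ insert j J, ∀ i, (h⁻¹ * g₂) i j' ∈ O) ∧ MInI (O : Set L) a ∧
      MInI (O : Set L) b ∧ h = g₁ * a + g₂ * b := by
  classical
  by_cases hall : ∀ i, (h⁻¹ * g₂) i j ∈ O
  · refine ⟨h, a, b, hh, h₁, ?_, ha, hb, hab⟩
    intro j' hj' i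
    rcases Finset.mem_insert.1 hj' with rfl | hj'
    · exact hall i
    · exact h₂ j' hj' i
  rw [not_forall] at hall
  obtain ⟨i₀, hi₀⟩ := hall
  have : Nonempty ι := ⟨i₀⟩
  set c : ι → L := fun i => (h⁻¹ * g₂) i j with hc
  obtain ⟨i, hi⟩ := Finite.exists_max (fun i => O.valuation (c i))
  have hci : c i ∉ O := by
    intro h3
    apply hi₀
    rw [← O.valuation_le_one_iff] at h3 ⊢
    exact (hi i₀).trans h3
  have hc0 : c i ≠ 0 := fun h3 => hci (h3 ▸ O.zero_mem)
  have hdiv : ∀ l, c l / c i ∈ O := by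
    intro l
    rw [← O.valuation_le_one_iff, map_div₀]
    exact div_le_one_of_le₀ (hi l) zero_le
  have hinv : (c i)⁻¹ ∈ O := by
    rcases O.mem_or_inv_mem (c i) with h3 | h3
    · exact absurd h3 hci
    · exact h3
  set e : ι → L := fun l => if l = i then (c i)⁻¹ else - (c l / c i) with he
  have heO : ∀ l, e l ∈ O := by
    intro l
    simp only [he]
    split_ifs
    · exact hinv
    · exact O.toSubring.neg_mem (hdiv l)
  have hEF : El i c * El i e = 1 := el_inv i c hc0
  have hEdet : (El i c).det ≠ 0 := by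
    have := congrArg Matrix.det hEF
    rw [Matrix.det_mul, Matrix.det_one] at this
    exact left_ne_zero_of_mul_eq_one this
  have hEi : (El i c)⁻¹ = El i e := Matrix.inv_eq_right_inv hEF
  have hint : ∀ (A : Matrix ι ι L) (m : ι), (∀ l, (h⁻¹ * A) l m ∈ O) →
      ∀ l, ((h * El i c)⁻¹ * A) l m ∈ O := by
    intro A m hA l
    rw [Matrix.mul_inv_rev, hEi, Matrix.mul_assoc, el_mul]
    refine O.toSubring.add_mem (O.toSubring.mul_mem (heO l) (hA i)) ?_
    split_ifs
    · exact O.zero_mem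
    · exact hA l
  have hhu : IsUnit h.det := isUnit_iff_ne_zero.2 hh
  refine ⟨h * El i c, Matrix.of fun l k => if k = i then 0 else a l k,
    Matrix.of fun l k => if k = i then (if l = j then 1 else 0) else b l k, ?_, ?_, ?_, ?_, ?_, ?_⟩
  · rw [Matrix.det_mul]
    exact mul_ne_zero hh hEdet
  · intro l m
    exact hint g₁ m (fun l => h₁ l m) l
  · intro j' hj' l
    rcases Finset.mem_insert.1 hj' with rfl | hj'
    · rw [Matrix.mul_inv_rev, hEi, Matrix.mul_assoc, el_mul]
      change e l * c i + (if l = i then 0 else c l) ∈ O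
      by_cases hl : l = i
      · subst hl
        simp only [he, if_true, add_zero]
        rw [inv_mul_cancel₀ hc0]
        exact O.one_mem
      · simp only [he, hl, if_false]
        rw [neg_mul, div_mul_cancel₀ _ hc0, neg_add_cancel]
        exact O.zero_mem
    · exact hint g₂ j' (fun l => h₂ j' hj' l) l
  · intro l k
    simp only [Matrix.of_apply]
    split_ifs
    · exact O.zero_mem
    · exact ha l k
  · intro l k
    simp only [Matrix.of_apply]
    split_ifs
    · exact O.one_mem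
    · exact O.zero_mem
    · exact hb l k
  · ext l k
    rw [mul_el, Matrix.add_apply, Matrix.mul_apply, Matrix.mul_apply]
    by_cases hk : k = i
    · simp only [hk, if_true, Matrix.of_apply, mul_zero, Finset.sum_const_zero, zero_add]
      have h3 : h *ᵥ c = fun l => g₂ l j := by
        have h4 : c = h⁻¹ *ᵥ (fun l => g₂ l j) := rfl
        rw [h4, Matrix.mulVec_mulVec, Matrix.mul_nonsing_inv _ hhu, Matrix.one_mulVec]
      rw [h3]
      simp
    · simp only [hk, if_false, Matrix.of_apply]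
      rw [hab, Matrix.add_apply, Matrix.mul_apply, Matrix.mul_apply]

theorem sml : SMLStmt := by
  intro L _ O ι _ _ g₁ g₂ hg₁
  classical
  have key : ∀ J : Finset ι, ∃ h a b : Matrix ι ι L, h.det ≠ 0 ∧ MInI (O : Set L) (h⁻¹ * g₁) ∧
      (∀ j ∈ J, ∀ i, (h⁻¹ * g₂) i j ∈ O) ∧ MInI (O : Set L) a ∧ MInI (O : Set L) b ∧
      h = g₁ * a + g₂ * b := by
    intro J
    induction J using Finset.induction_on with
    | empty =>
      refine ⟨g₁, 1, 0, hg₁, ?_, by simp, ?_, ?_, by simp⟩
      · intro i j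
        rw [Matrix.nonsing_inv_mul _ (isUnit_iff_ne_zero.2 hg₁), Matrix.one_apply]
        split_ifs
        · exact O.one_mem
        · exact O.zero_mem
      · intro i j
        rw [Matrix.one_apply]
        split_ifs
        · exact O.one_mem
        · exact O.zero_mem
      · intro i j
        exact O.zero_mem
    | insert j J _ ih =>
      obtain ⟨h, a, b, h1, h2, h3, h4, h5, h6⟩ := ih
      exact step O g₁ g₂ h a b J j h1 h2 h3 h4 h5 h6
  obtain ⟨h, a, b, h1, h2, h3, h4, h5, h6⟩ := key Finset.univ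
  exact ⟨h, a, b, h1, h2, fun i j => h3 j (Finset.mem_univ _) i, h4, h5, h6⟩

theorem lqc (hz : ZPBStmt) : LQCStmt := by
  intro p hp ι _ _ G h hh
  have hhu : IsUnit h.det := isUnit_iff_ne_zero.2 hh
  refine ⟨?_, ?_⟩
  · rintro d δ ⟨g, κ, iF, iD, u, a1, a2, a3, a4, a5, a6, a7⟩
    have hgu : IsUnit g.det := isUnit_iff_ne_zero.2 a1
    have e1 : ∀ x : ι → ℚ, (h * g)ᵀ *ᵥ (G *ᵥ (h *ᵥ x)) = gᵀ *ᵥ ((hᵀ * G * h) *ᵥ x) := by
      intro x
      rw [Matrix.transpose_mul, ← Matrix.mulVec_mulVec, Matrix.mulVec_mulVec _ G,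
        Matrix.mulVec_mulVec _ hᵀ, ← Matrix.mul_assoc]
    have e2 : ∀ x y : ι → ℚ, (h *ᵥ x) ⬝ᵥ (G *ᵥ (h *ᵥ y)) = x ⬝ᵥ ((hᵀ * G * h) *ᵥ y) := by
      intro x y
      rw [Matrix.mul_assoc, ← Matrix.mulVec_mulVec, ← Matrix.mulVec_mulVec,
        Matrix.dotProduct_mulVec x, Matrix.vecMul_transpose]
    have e3 : ∀ x : ι → ℚ, (h * g)⁻¹ *ᵥ (h *ᵥ x) = g⁻¹ *ᵥ x := by
      intro x
      rw [Matrix.mul_inv_rev, Matrix.mulVec_mulVec, Matrix.mul_assoc,
        Matrix.nonsing_inv_mul _ hhu, Matrix.mul_one]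
    refine ⟨h * g, κ, iF, iD, fun e => h *ᵥ u e, ?_, a2, ?_, ?_, ?_, ?_, ?_⟩
    · rw [Matrix.det_mul]
      exact mul_ne_zero hh a1
    · have : (h * g)ᵀ * G * (h * g) = gᵀ * (hᵀ * G * h) * g := by
        rw [Matrix.transpose_mul]
        simp only [Matrix.mul_assoc]
      rw [this]
      exact a3
    · intro e i
      rw [e1]
      exact a4 e i
    · intro e i
      rw [e3]
      exact a5 e i
    · intro x hx he i
      have hxe : x = h *ᵥ (h⁻¹ *ᵥ x) := by
        rw [Matrix.mulVec_mulVec, Matrix.mul_nonsing_inv _ hhu, Matrix.one_mulVec]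
      rw [hxe, e3]
      refine a6 (h⁻¹ *ᵥ x) (fun i => ?_) (fun e => ?_) i
      · rw [← e1, ← hxe]
        exact hx i
      · rw [← e2, ← hxe]
        exact he e
    · rw [a7]
      congr 1
      ext e e'
      simp only [Matrix.of_apply]
      rw [e2]
  · intro hG
    obtain ⟨⟨O, hO, -⟩, -⟩ := hz p hp
    have hm : ∀ x : ℚ, x ∈ O.toSubring ↔ x ∈ Zp p := by
      intro x
      rw [← hO]
      rfl
    have hG' : GInI (O.toSubring : Set ℚ) (hᵀ * G * h) := by
      have : (O.toSubring : Set ℚ) = Zp p := hO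
      rw [this]
      exact hG
    refine ⟨h, Fin 0, inferInstance, inferInstance, fun e => e.elim0, hh, by simp, hG.1,
      fun e => e.elim0, fun e => e.elim0, ?_, ?_⟩
    · intro x hx _ i
      have hGu : IsUnit (hᵀ * G * h).det := isUnit_iff_ne_zero.2 hG.2.1
      have h1 : h⁻¹ *ᵥ x = (hᵀ * G * h)⁻¹ *ᵥ (hᵀ *ᵥ (G *ᵥ x)) := by
        have h2 : x = h *ᵥ (h⁻¹ *ᵥ x) := by
          rw [Matrix.mulVec_mulVec, Matrix.mul_nonsing_inv _ hhu, Matrix.one_mulVec]
        have h3 : hᵀ *ᵥ (G *ᵥ x) = (hᵀ * G * h) *ᵥ (h⁻¹ *ᵥ x) := by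
          conv_lhs => rw [h2]
          simp only [Matrix.mulVec_mulVec, Matrix.mul_assoc]
        rw [h3, Matrix.mulVec_mulVec _ (hᵀ * G * h)⁻¹, Matrix.nonsing_inv_mul _ hGu,
          Matrix.one_mulVec]
      rw [h1, ← hm]
      exact mv_mem O.toSubring (ginv O.toSubring hG').1 (fun i => (hm _).2 (hx i)) i
    · rw [Matrix.det_fin_zero]

end Pool.NF.Sml

namespace Pool.NF

theorem sml : SMLStmt := Pool.NF.Sml.sml

theorem lqc : ZPBStmt → LQCStmt := Pool.NF.Sml.lqc

end Pool.NF
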