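import Pool.Agent.H85.NF.RCLQ
import Pool.Agent.H85.NF.CMP
import Pool.Agent.H85.NF.SML
import Pool.Agent.H31.NF.ZPB
import Pool.Agent.H31.NF.TMM
import Pool.Agent.H3.NF.LQD
import Pool.Agent.H12.NF.DGE
import Pool.Agent.H18.NF.WAQ
import Pool.Agent.H18.NF.GSN
import Pool.Agent.H18.NF.DGN
import Pool.Agent.H47.NF.PRL
import Pool.Agent.H47.NF.QRC

/-!
# NF: reciprocity over the rational numbers, complete
-/

set_option autoImplicit false

namespace Pool.NF

theorem rclqAll : RCLQStmt :=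
  rclq chm (cmp zpb sml) (lqc zpb) (lqd zpb) hslq (prl tmm (qrc zpb tmm)) (dgn dge waq gsn)

end Pool.NF
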