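import Pool.Agent.H29.NF.A

/-!
# NF: TWFN, the twists of the polynomials of the family
-/

set_option autoImplicit false

namespace Pool.NF

open Polynomial NumberField IsDedekindDomain Pool.HYP Pool.TOW Pool.AVS Pool.T1

theorem twfn : TWFNStmt := by
  intro K _ _ D Y E d hE hd f hf
  obtain ⟨hm, hdeg, ⟨h2, h1, h0⟩, -, -⟩ := hf
  refine ⟨?_, ?_, ?_⟩
  · exact (monic_scaleRoots_iff d).2 hm
  · rw [natDegree_scaleRoots, hdeg]
  intro i hi
  rw [coeff_scaleRoots, hdeg]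
  have hi' : 3 - (3 - i) = i := by omega
  rw [hi']
  intro σ
  have hσd : ‖σ (d : K)‖ ≤ (E : ℝ) := hd σ
  have hY : (0 : ℝ) ≤ Y := Nat.cast_nonneg Y
  have hE1 : (1 : ℝ) ≤ E := by exact_mod_cast hE
  have hcoe : ((f.coeff (3 - i) * d ^ i : 𝓞 K) : K) = (f.coeff (3 - i) : K) * (d : K) ^ i := by
    push_cast
    rfl
  rw [hcoe, map_mul, map_pow, norm_mul, norm_pow]
  have hpow : ‖σ (d : K)‖ ^ i ≤ (E : ℝ) ^ i := pow_le_pow_left₀ (norm_nonneg _) hσd i
  have hco : ‖σ (f.coeff (3 - i) : K)‖ ≤ (2 * (Y : ℝ)) ^ i := by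
    interval_cases i
    · have : f.coeff 3 = 1 := by
        have := hm.coeff_natDegree
        rwa [hdeg] at this
      simp [this]
    · have := h2 σ
      simp only [pow_one]
      refine this.trans ?_
      linarith
    · have := h1 σ
      refine this.trans ?_
      nlinarith [sq_nonneg (Y : ℝ)]
    · have h3 := h0 σ
      have h4 : (f.coeff 0 : K) = ((f.coeff 0 + (Y : 𝓞 K) ^ 3 : 𝓞 K) : K) - (Y : K) ^ 3 := by
        push_cast
        ring
      have h5 : ‖σ ((Y : K) ^ 3)‖ = (Y : ℝ) ^ 3 := by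
        rw [map_pow, map_natCast, norm_pow, Complex.norm_natCast]
      have h6 : (0 : ℝ) ≤ (Y : ℝ) ^ 3 := by positivity
      change ‖σ (f.coeff 0 : K)‖ ≤ _
      rw [h4, map_sub]
      refine (norm_sub_le _ _).trans ?_
      rw [h5]
      calc ‖σ ((f.coeff 0 + (Y : 𝓞 K) ^ 3 : 𝓞 K) : K)‖ + (Y : ℝ) ^ 3
          ≤ (Y : ℝ) ^ 3 / 100 + (Y : ℝ) ^ 3 := by linarith
        _ ≤ (2 * (Y : ℝ)) ^ 3 := by nlinarith
  calc ‖σ (f.coeff (3 - i) : K)‖ * ‖σ (d : K)‖ ^ i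
      ≤ (2 * (Y : ℝ)) ^ i * (E : ℝ) ^ i :=
        mul_le_mul hco hpow (by positivity) (by positivity)
    _ = (2 * E * Y : ℝ) ^ i := by
        rw [← mul_pow]
        congr 1
        ring

end Pool.NF
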