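import Pool.Agent.H85.NF.Q

/-!
# NF: RCLQ, reciprocity over the rational numbers (assembly)
-/

set_option autoImplicit false

namespace Pool.NF.Rclq

open Matrix Pool.T1 Pool.AVS Finset

section Lists

variable {ι : Type} [Fintype ι] [DecidableEq ι]

set_option linter.unusedSectionVars false

/-- The list of the diagonal entries. -/
noncomputable def lst (a b : ι → ℚ) : List (ℚ × ℚ) :=
  (univ : Finset ι).toList.map fun i => (a i, b i)

theorem nod_list (p : ℕ) (a b : ι → ℚ) (L : List ι) :
    nod p ((L.map fun i => (a i, b i)).flatMap fun q => [q.1, -q.2]) =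
      (L.map fun i => (if Odd (padicValRat p (a i)) then 1 else 0) +
        (if Odd (padicValRat p (-b i)) then 1 else 0)).sum := by
  induction L with
  | nil => rfl
  | cons i L ih =>
    have h1 : nod p (((i :: L).map fun i => (a i, b i)).flatMap fun q => [q.1, -q.2]) =
        nod p ((L.map fun i => (a i, b i)).flatMap fun q => [q.1, -q.2]) +
          (if Odd (padicValRat p (-b i)) then 1 else 0) +
          (if Odd (padicValRat p (a i)) then 1 else 0) := by
      unfold nod
      rw [List.map_cons, List.flatMap_cons, List.cons_append, List.cons_append, List.nil_append,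
        List.countP_cons, List.countP_cons]
      simp only [decide_eq_true_eq]
    rw [h1, ih, List.map_cons, List.sum_cons]
    ring

theorem pod_list (p : ℕ) (a b : ι → ℚ) (L : List ι) :
    pod p ((L.map fun i => (a i, b i)).flatMap fun q => [q.1, -q.2]) =
      (L.map fun i => (if Odd (padicValRat p (a i)) then rsd p (up p (a i)) else 1) *
        (if Odd (padicValRat p (-b i)) then rsd p (up p (-b i)) else 1)).prod := by
  induction L with
  | nil => rfl
  | cons i L ih =>
    have h0 : ∀ (x : ℚ) (l : List ℚ), pod p (x :: l) =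
        (if Odd (padicValRat p x) then rsd p (up p x) else 1) * pod p l := by
      intro x l
      unfold pod
      rw [List.filter_cons]
      by_cases h : Odd (padicValRat p x)
      · simp [h]
      · simp [h]
    rw [List.map_cons, List.flatMap_cons, List.cons_append, List.cons_append, List.nil_append,
      h0, h0, ih, List.map_cons, List.prod_cons]
    ring

end Lists

theorem val_zero {p : ℕ} (hp : p.Prime) {x : ℚ} (h1 : p ∉ x.num.natAbs.primeFactors)
    (h2 : p ∉ x.den.primeFactors) (hx : x ≠ 0) : padicValRat p x = 0 := by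
  have h3 : ¬ (p ∣ x.num.natAbs) := fun h => h1 (Nat.mem_primeFactors.2
    ⟨hp, h, Int.natAbs_ne_zero.2 (Rat.num_ne_zero.2 hx)⟩)
  have h4 : ¬ (p ∣ x.den) := fun h => h2 (Nat.mem_primeFactors.2 ⟨hp, h, x.den_ne_zero⟩)
  unfold padicValRat
  rw [padicValInt, padicValNat.eq_zero_of_not_dvd h3, padicValNat.eq_zero_of_not_dvd h4]
  simp

theorem ch_sq {p : ℕ} {a : ZMod p} (h : IsSquare a) : ch a = 1 := by
  unfold ch
  rw [if_pos h]

theorem ch_one_iff {p : ℕ} {a : ZMod p} : ch a = 1 ↔ IsSquare a := by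
  unfold ch
  split_ifs with h
  · simp [h]
  · simp [h]

theorem rclq (hch : CHMStmt) (hcmp : CMPStmt) (hlqc : LQCStmt) (hlqd : LQDStmt)
    (hhsl : HSLStmt) (hprl : PRLStmt) (hdgn : DGNStmt) : RCLQStmt := by
  classical
  intro ι _ _ A B T m δ hA hB hA0 hB0 hT hTl hSD hN hR
  obtain ⟨k, h, a, b, hk, hh, hka, hhb, hab⟩ := hdgn ι A B hA hB hA0 hB0 hN hR
  set G : Matrix (ι ⊕ ι) (ι ⊕ ι) ℚ := Matrix.fromBlocks A 0 0 (-B) with hG
  have hGt : Gᵀ = G := by
    rw [hG, Matrix.fromBlocks_transpose, hA, Matrix.transpose_neg, hB]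
    simp
  have hG0 : G.det ≠ 0 := by
    rw [hG, Matrix.det_fromBlocks_zero₂₁, Matrix.det_neg]
    exact mul_ne_zero hA0 (mul_ne_zero (pow_ne_zero _ (by norm_num)) hB0)
  set c : ι ⊕ ι → ℚ := Sum.elim a (fun i => -b i) with hc
  have hc0 : ∀ x, c x ≠ 0 := by
    rintro (i | i)
    · exact (hab i).1
    · exact neg_ne_zero.2 (hab i).2.1
  set N : Matrix (ι ⊕ ι) (ι ⊕ ι) ℚ := Matrix.fromBlocks k 0 0 h with hNdef
  have hNdet : N.det ≠ 0 := by
    rw [hNdef, Matrix.det_fromBlocks_zero₂₁]
    exact mul_ne_zero hk hh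
  have hNG : Nᵀ * G * N = Matrix.diagonal c := by
    rw [hNdef, hG, Matrix.fromBlocks_transpose, Matrix.fromBlocks_multiply,
      Matrix.fromBlocks_multiply]
    simp only [Matrix.transpose_zero, Matrix.mul_zero, Matrix.zero_mul, add_zero, zero_add,
      Matrix.mul_neg, Matrix.neg_mul]
    rw [hka, hhb]
    ext x y
    rcases x with x | x <;> rcases y with y | y <;>
      simp [Matrix.diagonal_apply, hc]
  set l : List ℚ := (lst a b).flatMap fun q => [q.1, -q.2] with hl
  have hl0 : ∀ x ∈ l, x ≠ 0 := by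
    intro x hx
    rw [hl, List.mem_flatMap] at hx
    obtain ⟨q, hq, hx⟩ := hx
    rw [lst, List.mem_map] at hq
    obtain ⟨i, -, rfl⟩ := hq
    simp only [List.mem_cons, List.not_mem_nil, or_false] at hx
    rcases hx with rfl | rfl
    · exact (hab i).1
    · exact neg_ne_zero.2 (hab i).2.1
  -- the lattice of the diagonal form
  have hloc : ∀ p, p.Prime → LocQ p G (nod p l) (pod p l) := by
    intro p hp
    have h1 := hlqd p hp (ι ⊕ ι) c hc0
    rw [← hNG] at h1
    have h2 := (hlqc p hp (ι ⊕ ι) G N hNdet).1 _ _ h1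
    have e1 : nod p l = (Finset.univ.filter fun i => Odd (padicValRat p (c i))).card := by
      rw [hl, lst, nod_list, Finset.sum_map_toList, Finset.card_filter, Fintype.sum_sum_type,
        Finset.sum_add_distrib]
      rfl
    have e2 : pod p l = ∏ i ∈ Finset.univ.filter fun i => Odd (padicValRat p (c i)),
        rsd p (up p (c i)) := by
      rw [hl, lst, pod_list, Finset.prod_map_toList, Finset.prod_filter, Fintype.prod_sum_type,
        Finset.prod_mul_distrib]
      rfl
    rw [e1, e2]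
    exact h2
  have hpow : ∀ (p : ℕ) (n n' : ℕ), Even (n + n') → ((-1 : ZMod p)) ^ n = (-1) ^ n' := by
    intro p n n' hn
    have h1 : (-1 : ZMod p) ^ n * (-1) ^ n' = 1 := by
      rw [← pow_add, hn.neg_one_pow]
    have h2 : (-1 : ZMod p) ^ n' * (-1) ^ n' = 1 := by
      rw [← pow_add, (Even.add_self n').neg_one_pow]
    calc (-1 : ZMod p) ^ n = (-1) ^ n * ((-1) ^ n' * (-1) ^ n') := by rw [h2, mul_one]
      _ = ((-1) ^ n * (-1) ^ n') * (-1) ^ n' := by ring
      _ = (-1) ^ n' := by rw [h1, one_mul]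
  have hkey : ∀ p, OPr p → ∀ (m₀ : ℕ) (δ₀ : ZMod p), δ₀ ≠ 0 → LocQ p G (2 * m₀) δ₀ →
      hsl p l = ch ((-1) ^ m₀ * δ₀) := by
    intro p hp m₀ δ₀ hδ hL
    have := Fact.mk hp.1
    have hpod : pod p l ≠ 0 := by
      by_cases hev : ∃ m', nod p l = 2 * m'
      · obtain ⟨m', hm'⟩ := hev
        exact (hhsl p hp l m' hl0 hm').2
      · have hodd : ∃ m', nod p ((p : ℚ) :: l) = 2 * m' := by
          have h3 : nod p ((p : ℚ) :: l) = nod p l + 1 := by
            unfold nod
            rw [List.countP_cons]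
            have : Odd (padicValRat p (p : ℚ)) := by
              rw [padicValRat.self hp.1.one_lt]
              exact odd_one
            simp [this]
          have h4 : Odd (nod p l) := by
            rw [← Nat.not_even_iff_odd]
            rintro ⟨r, hr⟩
            exact hev ⟨r, by omega⟩
          obtain ⟨r, hr⟩ := h4
          exact ⟨r + 1, by omega⟩
        obtain ⟨m', hm'⟩ := hodd
        have h5 := (hhsl p hp ((p : ℚ) :: l) m' (by
          intro x hx
          rcases List.mem_cons.1 hx with rfl | hx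
          · exact Nat.cast_ne_zero.2 hp.1.ne_zero
          · exact hl0 x hx) hm').2
        intro h6
        apply h5
        have : Odd (padicValRat p (p : ℚ)) := by
          rw [padicValRat.self hp.1.one_lt]
          exact odd_one
        have h7 : pod p ((p : ℚ) :: l) = rsd p (up p (p : ℚ)) * pod p l := by
          unfold pod
          rw [List.filter_cons]
          simp [this]
        rw [h7, h6, mul_zero]
    obtain ⟨m', h1, h2⟩ := hcmp p hp.1 (ι ⊕ ι) G hGt hG0 _ _ _ _ hδ hpod hL (hloc p hp.1)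
    have h3 : nod p l = 2 * (m' - m₀) := by omega
    obtain ⟨h4, -⟩ := hhsl p hp l (m' - m₀) hl0 h3
    have hm1 : (-1 : ZMod p) ≠ 0 := neg_ne_zero.2 one_ne_zero
    have h5 : ((-1 : ZMod p)) ^ (m' + nod p l) * (δ₀ * pod p l) =
        ((-1) ^ m₀ * δ₀) * ((-1) ^ (m' - m₀) * pod p l) := by
      rw [hpow p (m' + nod p l) (m₀ + (m' - m₀)) ⟨m' + (m' - m₀), by omega⟩, pow_add]
      ring
    rw [h5] at h2
    have h6 := (hch p hp.1 _ _ (mul_ne_zero (pow_ne_zero m₀ hm1) hδ)
      (mul_ne_zero (pow_ne_zero (m' - m₀) hm1) hpod)).1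
    rw [ch_sq h2] at h6
    have h7 := (hch p hp.1 _ _ (mul_ne_zero (pow_ne_zero m₀ hm1) hδ) hm1).2.2.2
    rw [h4]
    rcases h7 with h7 | h7
    · rw [h7] at h6 ⊢
      linarith
    · rw [h7] at h6 ⊢
      linarith
  -- the product formula
  set S : Finset ℕ := T ∪ ((Finset.univ.biUnion fun x : ι ⊕ ι =>
    (c x).num.natAbs.primeFactors ∪ (c x).den.primeFactors).filter OPr) with hS
  have hSO : ∀ p ∈ S, OPr p := by
    intro p hp
    rcases Finset.mem_union.1 hp with hp | hp
    · exact hT p hp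
    · exact (Finset.mem_filter.1 hp).2
  have hv : ∀ p, OPr p → p ∉ S → ∀ x, padicValRat p (c x) = 0 := by
    intro p hp hpS x
    have h1 : p ∉ (c x).num.natAbs.primeFactors ∪ (c x).den.primeFactors := by
      intro h2
      apply hpS
      refine Finset.mem_union_right _ (Finset.mem_filter.2 ⟨?_, hp⟩)
      exact Finset.mem_biUnion.2 ⟨x, Finset.mem_univ _, h2⟩
    rw [Finset.mem_union, not_or] at h1
    exact val_zero hp.1 h1.1 h1.2 (hc0 x)
  have hprod := hprl (lst a b) S (by
    intro q hq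
    rw [lst, List.mem_map] at hq
    obtain ⟨i, -, rfl⟩ := hq
    exact hab i) hSO (by
    intro p hp hpS q hq
    rw [lst, List.mem_map] at hq
    obtain ⟨i, -, rfl⟩ := hq
    refine ⟨hv p hp hpS (Sum.inl i), ?_⟩
    have := hv p hp hpS (Sum.inr i)
    simp only [hc, Sum.elim_inr] at this
    rwa [padicValRat.neg] at this)
  have hTS : T ⊆ S := Finset.subset_union_left
  rw [← Finset.prod_sdiff hTS] at hprod
  have h1 : ∏ p ∈ S \ T, hsl p ((lst a b).flatMap fun q => [q.1, -q.2]) = 1 := by
    refine Finset.prod_eq_one fun p hp => ?_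
    obtain ⟨hp1, hp2⟩ := Finset.mem_sdiff.1 hp
    have hO := hSO p hp1
    have := Fact.mk hO.1
    obtain ⟨g, hg, hg'⟩ := hSD p hO hp2
    have h2 := (hlqc p hO.1 (ι ⊕ ι) G g hg).2 hg'
    have h3 := hkey p hO 0 1 one_ne_zero h2
    rw [pow_zero, one_mul] at h3
    rw [← hl, h3]
    exact ch_sq ⟨1, by ring⟩
  rw [h1, one_mul] at hprod
  have h2 : ∏ p ∈ T, (if IsSquare ((-1) ^ m p * δ p) then (1 : ℤ) else -1) = 1 := by
    refine Eq.trans ?_ hprod
    refine Finset.prod_congr rfl fun p hp => ?_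
    rw [← hl, hkey p (hT p hp) (m p) (δ p) (hTl p hp).2 (hTl p hp).1]
    unfold ch
    rfl
  rw [Finset.prod_ite, Finset.prod_const_one, one_mul, Finset.prod_const] at h2
  have h3 : {p | p ∈ T ∧ ¬ IsSquare ((-1) ^ m p * δ p)} =
      ((T.filter fun p => ¬ IsSquare ((-1) ^ m p * δ p) : Finset ℕ) : Set ℕ) := by
    ext p
    simp
  rw [h3, Set.ncard_coe_finset]
  rcases Nat.even_or_odd (T.filter fun p => ¬ IsSquare ((-1) ^ m p * δ p)).card with h4 | h4
  · exact h4
  · rw [h4.neg_one_pow] at h2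
    norm_num at h2

end Pool.NF.Rclq

namespace Pool.NF

theorem rclq : CHMStmt → CMPStmt → LQCStmt → LQDStmt → HSLStmt → PRLStmt → DGNStmt →
    RCLQStmt := Pool.NF.Rclq.rclq

end Pool.NF
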